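import Pool.Agent.H49.FQ.Rep

/-!
# Squares which are not conjugate to given elements
-/

set_option autoImplicit false

namespace Pool.Agent.H49.FQ

section Trace

variable {K : Type*} [Field K]

private theorem trace_add (P Q : (Matrix (Fin 2) (Fin 2) K)ˣ)
    (hQ : Matrix.det (Q : Matrix (Fin 2) (Fin 2) K) = 1) :
    Matrix.trace ((P * Q : (Matrix (Fin 2) (Fin 2) K)ˣ) : Matrix (Fin 2) (Fin 2) K) +
      Matrix.trace ((P * Q⁻¹ : (Matrix (Fin 2) (Fin 2) K)ˣ) : Matrix (Fin 2) (Fin 2) K) =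
    Matrix.trace (P : Matrix (Fin 2) (Fin 2) K) * Matrix.trace (Q : Matrix (Fin 2) (Fin 2) K) := by
  have h1 : ((Q⁻¹ : (Matrix (Fin 2) (Fin 2) K)ˣ) : Matrix (Fin 2) (Fin 2) K) =
      Matrix.adjugate (Q : Matrix (Fin 2) (Fin 2) K) := by
    have h2 : (Q : Matrix (Fin 2) (Fin 2) K) * Matrix.adjugate (Q : Matrix (Fin 2) (Fin 2) K) =
        1 := by
      rw [Matrix.mul_adjugate, hQ, one_smul]
    exact Units.inv_eq_of_mul_eq_one_right h2
  rw [Units.val_mul, Units.val_mul, h1, Matrix.adjugate_fin_two]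
  simp only [Matrix.trace_fin_two, Matrix.mul_apply, Fin.sum_univ_two, Matrix.of_apply,
    Matrix.cons_val', Matrix.cons_val_zero, Matrix.cons_val_one, Matrix.cons_val_fin_one]
  ring

end Trace

section Char

variable {k Z : Type} [Field k] (p : Z × Bool → k) (hp : Function.Injective p)

/-- the character of the representation -/
private noncomputable def chi (g : FreeGroup Z) : K k :=
  Matrix.trace ((rep p hp g : (Matrix (Fin 2) (Fin 2) (K k))ˣ) : Matrix (Fin 2) (Fin 2) (K k))

private theorem chi_conj {g h : FreeGroup Z} (hgh : IsConj g h) : chi p hp g = chi p hp h := by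
  obtain ⟨c, rfl⟩ := isConj_iff.1 hgh
  rw [chi, chi, map_mul, map_mul, map_inv, Units.val_mul, Units.val_mul, Matrix.trace_units_conj]

private theorem chi_mul (g h : FreeGroup Z) :
    chi p hp (g * h) + chi p hp (g * h⁻¹) = chi p hp g * chi p hp h := by
  have := trace_add (rep p hp g) (rep p hp h) (det_rep p hp h)
  rw [← map_inv, ← map_mul, ← map_mul] at this
  exact this

private theorem chi_one : chi p hp 1 = 2 := by
  rw [chi, map_one, Units.val_one, Matrix.trace_one, Fintype.card_fin]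
  norm_num

private theorem chi_comm (g h : FreeGroup Z) : chi p hp (g * h) = chi p hp (h * g) :=
  chi_conj p hp (isConj_iff.2 ⟨h, by group⟩)

private theorem eq_of_chi (P d : FreeGroup Z)
    (h : chi p hp (d * P * d⁻¹ * P) = chi p hp (P * P)) : d * P = P * d := by
  set Q := d * P * d⁻¹ with hQ
  have h1 : chi p hp P = chi p hp Q := chi_conj p hp (isConj_iff.2 ⟨d, rfl⟩)
  have s1 := chi_mul p hp Q P
  have s2 := chi_mul p hp P P
  rw [h, ← h1] at s1
  rw [mul_inv_cancel, chi_one] at s2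
  have s3 : chi p hp (Q * P⁻¹) = 2 := by linear_combination s1 - s2
  have h3 := trace_two p hp _ s3
  have h4 : Q = P := by
    rw [← mul_inv_eq_one]
    exact h3
  rw [hQ, mul_inv_eq_iff_eq_mul] at h4
  exact h4

/-- three terms of an arithmetic progression -/
private theorem three_chi (h2 : (2 : K k) ≠ 0) (P w e : FreeGroup Z)
    (h0 : chi p hp (P * P) = chi p hp w)
    (h1 : chi p hp (e * P * (e * P)) = chi p hp (e * e * w))
    (h3 : chi p hp (e⁻¹ * P * (e⁻¹ * P)) = chi p hp (e⁻¹ * e⁻¹ * w)) : e * P = P * e := by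
  refine eq_of_chi p hp P e ?_
  have a1 := chi_mul p hp P P
  have a2 := chi_mul p hp (e * P) (e * P)
  have a3 := chi_mul p hp (e⁻¹ * P) (e⁻¹ * P)
  have a4 := chi_mul p hp e e
  rw [mul_inv_cancel, chi_one] at a1 a2 a3 a4
  have a5 := chi_mul p hp w (e * e)
  have a6 := chi_mul p hp P e
  have a7 := chi_mul p hp (e * P) (e⁻¹ * P)
  have e1 : w * (e * e)⁻¹ = w * (e⁻¹ * e⁻¹) := by group
  have e2 : e * P * (e⁻¹ * P) = e * P * e⁻¹ * P := by group
  have e3 : e * P * (e⁻¹ * P)⁻¹ = e * e := by group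
  rw [e1, chi_comm p hp w, chi_comm p hp w] at a5
  rw [chi_comm p hp P e, chi_comm p hp P e⁻¹] at a6
  rw [e2, e3] at a7
  rw [← h1, ← h3, ← h0] at a5
  set x := chi p hp P
  set y := chi p hp (e * P)
  set z := chi p hp (e⁻¹ * P)
  set τ := chi p hp e
  have b1 : chi p hp (P * P) = x * x - 2 := by linear_combination a1
  have b2 : chi p hp (e * P * (e * P)) = y * y - 2 := by linear_combination a2
  have b3 : chi p hp (e⁻¹ * P * (e⁻¹ * P)) = z * z - 2 := by linear_combination a3
  have b4 : chi p hp (e * e) = τ * τ - 2 := by linear_combination a4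
  rw [b1, b2, b3, b4] at a5
  rw [b4] at a7
  rw [b1]
  have c1 : 2 * (chi p hp (e * P * e⁻¹ * P) - (x * x - 2)) = 0 := by
    have hz : z = x * τ - y := by linear_combination a6
    rw [hz] at a5 a7
    linear_combination 2 * a7 - a5
  have c2 := (mul_eq_zero.1 c1).resolve_left h2
  linear_combination c2

end Char

theorem comm_of_zpow {Z : Type} (u v : FreeGroup Z) (D : ℕ) (hD : 0 < D)
    (h : u ^ D * v = v * u ^ D) : u * v = v * u := by
  have h1 : (v * u * v⁻¹) ^ D = u ^ D := by
    rw [conj_pow, ← h]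
    group
  have h2 : v * u * v⁻¹ = u := pow_left_injective hD.ne' h1
  rw [mul_inv_eq_iff_eq_mul] at h2
  exact h2.symm

theorem three {Z : Type} (u v s : FreeGroup Z) (n D : ℕ) (hD : 0 < D)
    (h0 : IsConj (u ^ (2 * n + 1) * s) (u ^ n * v * (u ^ n * v)))
    (h1 : IsConj (u ^ (2 * (n + D) + 1) * s) (u ^ (n + D) * v * (u ^ (n + D) * v)))
    (h2 : IsConj (u ^ (2 * (n + 2 * D) + 1) * s)
      (u ^ (n + 2 * D) * v * (u ^ (n + 2 * D) * v))) : u * v = v * u := by
  classical
  let k : Type := FractionRing (MvPolynomial (Z × Bool) ℚ)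
  let p : Z × Bool → k := fun x => algebraMap (MvPolynomial (Z × Bool) ℚ) k (MvPolynomial.X x)
  have hp : Function.Injective p := fun x y hxy =>
    MvPolynomial.X_injective (FaithfulSMul.algebraMap_injective (MvPolynomial (Z × Bool) ℚ) k hxy)
  have two : (2 : K k) ≠ 0 := by
    have e : (2 : K k) = cc k 2 := by rw [map_ofNat]
    rw [e]
    refine (map_ne_zero_iff _ cc_inj).2 ?_
    have e' : (2 : k) = algebraMap (MvPolynomial (Z × Bool) ℚ) k 2 := by rw [map_ofNat]
    rw [e']
    refine (map_ne_zero_iff _ (FaithfulSMul.algebraMap_injective _ _)).2 ?_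
    exact two_ne_zero
  have e0 : (u ^ D)⁻¹ * (u ^ (n + D) * v) = u ^ n * v := by
    rw [add_comm n D, pow_add]
    group
  have e1 : u ^ D * (u ^ (n + D) * v) = u ^ (n + 2 * D) * v := by
    rw [← mul_assoc, ← pow_add]
    congr 2
    ring
  have e2 : (u ^ D)⁻¹ * (u ^ D)⁻¹ * (u ^ (2 * (n + D) + 1) * s) = u ^ (2 * n + 1) * s := by
    have : 2 * (n + D) + 1 = D + (D + (2 * n + 1)) := by ring
    rw [this, pow_add, pow_add]
    group
  have e3 : u ^ D * u ^ D * (u ^ (2 * (n + D) + 1) * s) = u ^ (2 * (n + 2 * D) + 1) * s := by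
    rw [← pow_add, ← mul_assoc, ← pow_add]
    congr 2
    ring
  have h3 := three_chi p hp two (u ^ (n + D) * v) (u ^ (2 * (n + D) + 1) * s) (u ^ D)
    (chi_conj p hp h1).symm
    (by rw [e1, e3]; exact (chi_conj p hp h2).symm)
    (by rw [e0, e2]; exact (chi_conj p hp h0).symm)
  refine comm_of_zpow u v D hD ?_
  have h4 : u ^ (n + D) * (u ^ D * v) = u ^ (n + D) * (v * u ^ D) := by
    have e4 : u ^ D * (u ^ (n + D) * v) = u ^ (n + D) * (u ^ D * v) := by
      rw [← mul_assoc, ← mul_assoc, ← pow_add, ← pow_add, add_comm D]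
    rw [← e4, h3, mul_assoc]
  exact mul_left_cancel h4

/-- For finitely many elements `s x` and infinitely many `n` no `u ^ (2 n + 1) s` is conjugate
to `(u ^ n v) ^ 2`. -/
theorem avoid {Z α : Type} [Finite α] (u v : FreeGroup Z) (huv : u * v ≠ v * u)
    (s : α → FreeGroup Z) (N : ℕ) : ∃ n, N ≤ n ∧
      ∀ x, ¬ IsConj (u ^ (2 * n + 1) * s x) (u ^ n * v * (u ^ n * v)) := by
  by_contra hcon
  push Not at hcon
  have : Nonempty α := ⟨(hcon N le_rfl).choose⟩
  choose! C hC using hcon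
  obtain ⟨a, ha, b, c, hc⟩ := Combinatorics.exists_mono_homothetic_copy
    (M := ℕ) (κ := α) {0, 1, 2} (fun n => C (N + n))
  have c0 := hc 0 (by simp)
  have c1 := hc 1 (by simp)
  have c2 := hc 2 (by simp)
  simp only [smul_eq_mul, mul_zero, zero_add, mul_one] at c0 c1 c2
  have d0 := hC (N + b) (by omega)
  have d1 := hC (N + (a + b)) (by omega)
  have d2 := hC (N + (a * 2 + b)) (by omega)
  rw [c0] at d0
  rw [c1] at d1
  rw [c2] at d2
  have f1 : N + (a + b) = N + b + a := by ring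
  have f2 : N + (a * 2 + b) = N + b + 2 * a := by ring
  rw [f1] at d1
  rw [f2] at d2
  exact huv (three u v (s c) (N + b) a ha d0 d1 d2)

end Pool.Agent.H49.FQ
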