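import Pool.Agent.H49.FQ.Edge

/-!
# Generating sets
-/

set_option autoImplicit false

namespace Pool.Agent.H49.FQ

open Multiplicative

private theorem ab_eq {Z : Type} (g h : FreeGroup Z) (H : ∀ z, expo z g = expo z h) :
    Abelianization.of g = Abelianization.of h := by
  classical
  let e : FreeAbelianGroup Z ≃+ (Z →₀ ℤ) := FreeAbelianGroup.equivFinsupp Z
  let ψ : Abelianization (FreeGroup Z) → FreeAbelianGroup Z := fun x => Additive.ofMul x
  have key : ∀ (z : Z) (g : FreeGroup Z), toAdd (expo z g) = e (ψ (Abelianization.of g)) z := by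
    intro z g
    let φ : FreeGroup Z →* Multiplicative ℤ :=
      { toFun := fun g => ofAdd (e (ψ (Abelianization.of g)) z)
        map_one' := by
          have : ψ (Abelianization.of (1 : FreeGroup Z)) = 0 := rfl
          rw [this]
          simp
        map_mul' := fun a b => by
          have : ψ (Abelianization.of (a * b)) = ψ (Abelianization.of a) +
              ψ (Abelianization.of b) := rfl
          rw [this]
          simp [ofAdd_add] }
    have hφ : expo z = φ := by
      apply FreeGroup.ext_hom
      intro y
      have h1 : ψ (Abelianization.of (FreeGroup.of y)) = FreeAbelianGroup.of y := rfl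
      have h2 : φ (FreeGroup.of y) = ofAdd (e (FreeAbelianGroup.of y) z) := rfl
      rw [h2]
      have h3 : e (FreeAbelianGroup.of y) = Finsupp.single y 1 := by
        simp [e]
      rw [h3, Finsupp.single_apply]
      simp only [expo, FreeGroup.lift_apply_of]
      split_ifs <;> rfl
    rw [hφ]
    rfl
  have h1 : ψ (Abelianization.of g) = ψ (Abelianization.of h) := by
    apply e.injective
    ext z
    rw [← key, ← key, H]
  exact h1

private theorem indep {Z α : Type} (s : α → FreeGroup Z)
    (hgen : Subgroup.closure (Set.range s) = ⊤) (z w : Z) (hzw : z ≠ w) :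
    ∃ x y, toAdd (expo z (s x)) * toAdd (expo w (s y)) ≠
      toAdd (expo w (s x)) * toAdd (expo z (s y)) := by
  by_contra hcon
  push Not at hcon
  have step1 : ∀ (y : α) (g : FreeGroup Z), toAdd (expo z g) * toAdd (expo w (s y)) =
      toAdd (expo w g) * toAdd (expo z (s y)) := by
    intro y g
    have hg : g ∈ Subgroup.closure (Set.range s) := by rw [hgen]; trivial
    induction hg using Subgroup.closure_induction with
    | mem x hx =>
      obtain ⟨a, rfl⟩ := hx
      exact hcon a y
    | one => rw [(expo z).map_one, (expo w).map_one]; simp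
    | mul a b _ _ ha hb =>
      rw [(expo z).map_mul, (expo w).map_mul, toAdd_mul, toAdd_mul, add_mul, add_mul, ha, hb]
    | inv a _ ha =>
      rw [(expo z).map_inv, (expo w).map_inv, toAdd_inv, toAdd_inv, neg_mul, neg_mul, ha]
  have step2 : ∀ g h : FreeGroup Z, toAdd (expo z g) * toAdd (expo w h) =
      toAdd (expo w g) * toAdd (expo z h) := by
    intro g h
    have hh : h ∈ Subgroup.closure (Set.range s) := by rw [hgen]; trivial
    induction hh using Subgroup.closure_induction with
    | mem x hx =>
      obtain ⟨a, rfl⟩ := hx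
      exact step1 a g
    | one => rw [(expo z).map_one, (expo w).map_one]; simp
    | mul a b _ _ ha hb =>
      rw [(expo z).map_mul, (expo w).map_mul, toAdd_mul, toAdd_mul, mul_add, mul_add, ha, hb]
    | inv a _ ha =>
      rw [(expo z).map_inv, (expo w).map_inv, toAdd_inv, toAdd_inv, mul_neg, mul_neg, ha]
  have h1 := step2 (FreeGroup.of z) (FreeGroup.of w)
  simp [expo, hzw, hzw.symm] at h1

/-- A finite inverse-closed generating set `ι(α)` of `G`, a surjection `f` from `G` to a free
group of rank at least two; if different elements of `f(ι(α))` have different images in the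
abelianization, there is an edge as in the main theorem. -/
theorem edge_of_generates {G α Z : Type} [Group G] [Fintype α] (ι : α → G)
    (f : G →* FreeGroup Z) (hinv : ∀ a, ∃ b, ι b = (ι a)⁻¹)
    (hgen : Subgroup.closure (Set.range ι) = ⊤) (hf : Function.Surjective f)
    (hZ : ∃ z w : Z, z ≠ w)
    (hab : ∀ x y, Abelianization.of (f (ι x)) = Abelianization.of (f (ι y)) →
      f (ι x) = f (ι y)) :
    ∃ (lam gam : FreeGroup Z →* Multiplicative ℤ) (u v : FreeGroup Z) (M c : ℤ),
      0 < M ∧ 0 < c ∧ toAdd (lam u) = M ∧ toAdd (lam v) = M ∧ toAdd (gam u) = 0 ∧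
      toAdd (gam v) = c ∧ (∃ x, f (ι x) = u) ∧ (∃ x, f (ι x) = v) ∧
      ∀ x, toAdd (lam (f (ι x))) < M ∨ (toAdd (lam (f (ι x))) = M ∧
        (f (ι x) = u ∨ f (ι x) = v ∨ c < toAdd (gam (f (ι x))))) := by
  obtain ⟨z, w, hzw⟩ := hZ
  have hgen' : Subgroup.closure (Set.range fun x => f (ι x)) = ⊤ := by
    have h1 : (Set.range fun x => f (ι x)) = f '' Set.range ι := by
      rw [← Set.range_comp]
      rfl
    rw [h1, ← MonoidHom.map_closure, hgen, Subgroup.map_top_of_surjective f hf]
  obtain ⟨x, y, hxy⟩ := indep (fun x => f (ι x)) hgen' z w hzw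
  exact exists_edge (fun x => f (ι x))
    (fun a => by
      obtain ⟨b, hb⟩ := hinv a
      exact ⟨b, by rw [hb, map_inv]⟩)
    (fun x y h => hab x y (ab_eq _ _ h)) ⟨x, y, z, w, hxy⟩

end Pool.Agent.H49.FQ
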