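import Mathlib

/-!
# Edges of the convex hull of the abelianised images
-/

set_option autoImplicit false

namespace Pool.Agent.H49.FQ

open Multiplicative

open Classical in
/-- the exponent sum of the generator `z` -/
noncomputable def expo {Z : Type} (z : Z) : FreeGroup Z →* Multiplicative ℤ :=
  FreeGroup.lift fun y => if y = z then ofAdd 1 else 1

private theorem comb_apply {F : Type} [Group F] (p q : F →* Multiplicative ℤ) (m n : ℤ) (g : F) :
    toAdd ((p ^ m * q ^ n) g) = m * toAdd (p g) + n * toAdd (q g) := by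
  rw [MonoidHom.mul_apply, toAdd_mul]
  have h : ∀ (p : F →* Multiplicative ℤ) (m : ℤ), (p ^ m) g = (p g) ^ m := by
    intro p m
    cases m with
    | ofNat m => simp [MonoidHom.pow_apply]
    | negSucc m =>
      rw [zpow_negSucc, zpow_negSucc, MonoidHom.inv_apply, MonoidHom.pow_apply]
  rw [h, h, toAdd_zpow, toAdd_zpow, smul_eq_mul, smul_eq_mul]

private theorem generic {Z : Type} (D : Finset (FreeGroup Z))
    (hD : ∀ d ∈ D, ∃ z, toAdd (expo z d) ≠ 0) :
    ∃ p : FreeGroup Z →* Multiplicative ℤ, ∀ d ∈ D, toAdd (p d) ≠ 0 := by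
  classical
  induction D using Finset.induction_on with
  | empty => exact ⟨1, by simp⟩
  | insert d D hd ih =>
    obtain ⟨p, hp⟩ := ih fun d hd => hD d (Finset.mem_insert_of_mem hd)
    obtain ⟨z, hz⟩ := hD d (Finset.mem_insert_self d D)
    obtain ⟨N, hN⟩ : ∃ N : ℤ, ∀ e ∈ insert d D, |toAdd (expo z e)| < N := by
      refine ⟨∑ e ∈ insert d D, |toAdd (expo z e)| + 1, fun e he => ?_⟩
      have := Finset.single_le_sum (f := fun e => |toAdd (expo z e)|)
        (fun e _ => abs_nonneg _) he
      linarith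
    refine ⟨p ^ N * expo z ^ (1 : ℤ), fun e he => ?_⟩
    rw [comb_apply, one_mul]
    have h1 := hN e he
    by_cases h2 : toAdd (p e) = 0
    · rcases Finset.mem_insert.1 he with h3 | h3
      · rw [h2, mul_zero, zero_add, h3]
        exact hz
      · exact absurd h2 (hp e h3)
    · intro h3
      have h4 : |N * toAdd (p e)| = |toAdd (expo z e)| := by
        have : N * toAdd (p e) = -toAdd (expo z e) := by linarith
        rw [this, abs_neg]
      rw [abs_mul] at h4
      have h5 : 1 ≤ |toAdd (p e)| := Int.one_le_abs h2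
      have h6 : N ≤ |N| := le_abs_self N
      nlinarith [abs_nonneg N]

/-- Let the finite family `s` in the free group be closed under inversion, two members with the
same exponent sums being equal and two members having independent exponent sums. Then there are
two functionals `lam`, `gam` as in the main theorem. -/
theorem exists_edge {Z α : Type} [Fintype α] (s : α → FreeGroup Z)
    (hinv : ∀ x, ∃ y, s y = (s x)⁻¹)
    (hinj : ∀ x y, (∀ z, expo z (s x) = expo z (s y)) → s x = s y)
    (hind : ∃ x y z w, toAdd (expo z (s x)) * toAdd (expo w (s y)) ≠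
      toAdd (expo w (s x)) * toAdd (expo z (s y))) :
    ∃ (lam gam : FreeGroup Z →* Multiplicative ℤ) (u v : FreeGroup Z) (M c : ℤ),
      0 < M ∧ 0 < c ∧ toAdd (lam u) = M ∧ toAdd (lam v) = M ∧ toAdd (gam u) = 0 ∧
      toAdd (gam v) = c ∧ (∃ x, s x = u) ∧ (∃ x, s x = v) ∧
      ∀ x, toAdd (lam (s x)) < M ∨ (toAdd (lam (s x)) = M ∧
        (s x = u ∨ s x = v ∨ c < toAdd (gam (s x)))) := by
  classical
  obtain ⟨x₀, y₀, z, w, hzw⟩ := hind
  obtain ⟨p, hp⟩ := generic
    ((Finset.univ.image fun q : α × α => s q.1 * (s q.2)⁻¹).filter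
      (fun d => ∃ z, toAdd (expo z d) ≠ 0) ∪
      (Finset.univ.image s).filter (fun d => ∃ z, toAdd (expo z d) ≠ 0))
    (by
      intro d hd
      rcases Finset.mem_union.1 hd with h | h
      · exact (Finset.mem_filter.1 h).2
      · exact (Finset.mem_filter.1 h).2)
  -- `p` is injective on the images
  have pinj : ∀ x y, toAdd (p (s x)) = toAdd (p (s y)) → s x = s y := by
    intro x y hxy
    apply hinj
    intro z
    by_contra hz
    have h1 : toAdd (expo z (s x * (s y)⁻¹)) ≠ 0 := by
      rw [map_mul, map_inv, toAdd_mul, toAdd_inv]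
      intro h2
      apply hz
      have : toAdd (expo z (s x)) = toAdd (expo z (s y)) := by linarith
      exact toAdd.injective this
    refine hp (s x * (s y)⁻¹) (Finset.mem_union_left _ (Finset.mem_filter.2 ⟨?_, z, h1⟩)) ?_
    · exact Finset.mem_image.2 ⟨(x, y), Finset.mem_univ _, rfl⟩
    · rw [p.map_mul, p.map_inv, toAdd_mul, toAdd_inv, hxy]
      ring
  have px₀ : ¬ (toAdd (p (s x₀)) = 0 ∧ toAdd (p (s y₀)) = 0) := by
    rintro ⟨h1, h2⟩
    have h3 : ∀ x, toAdd (p (s x)) = 0 → ∀ z, toAdd (expo z (s x)) = 0 := by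
      intro x hx z
      by_contra hz
      exact hp (s x) (Finset.mem_union_right _ (Finset.mem_filter.2
        ⟨Finset.mem_image.2 ⟨x, Finset.mem_univ _, rfl⟩, z, hz⟩)) hx
    apply hzw
    rw [h3 x₀ h1, h3 x₀ h1]
    ring
  -- the second functional
  obtain ⟨q, hq⟩ : ∃ q : FreeGroup Z →* Multiplicative ℤ,
      toAdd (p (s x₀)) * toAdd (q (s y₀)) ≠ toAdd (p (s y₀)) * toAdd (q (s x₀)) := by
    by_contra hcon
    push Not at hcon
    have h1 := hcon (expo z)
    have h2 := hcon (expo w)
    apply hzw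
    by_cases h3 : toAdd (p (s x₀)) = 0
    · have h4 : toAdd (p (s y₀)) ≠ 0 := fun h => px₀ ⟨h3, h⟩
      rw [h3, zero_mul] at h1 h2
      have h5 := (mul_eq_zero.1 h1.symm).resolve_left h4
      have h6 := (mul_eq_zero.1 h2.symm).resolve_left h4
      rw [h5, h6]
      ring
    · apply mul_left_cancel₀ h3
      linear_combination toAdd (expo z (s x₀)) * h2 - toAdd (expo w (s x₀)) * h1
  -- the vertex
  obtain ⟨A, -, hA⟩ := Finset.exists_max_image (Finset.univ : Finset α)
    (fun x => toAdd (p (s x))) ⟨x₀, Finset.mem_univ _⟩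
  have hA' : ∀ x, toAdd (p (s x)) ≤ toAdd (p (s A)) := fun x => hA x (Finset.mem_univ _)
  have hne : (Finset.univ.filter fun x => toAdd (p (s x)) < toAdd (p (s A))).Nonempty := by
    by_contra hcon
    rw [Finset.not_nonempty_iff_eq_empty] at hcon
    have h1 : ∀ x, s x = s A := by
      intro x
      apply pinj
      refine le_antisymm (hA' x) (not_lt.1 fun h => ?_)
      have : x ∈ (∅ : Finset α) := by
        rw [← hcon]
        exact Finset.mem_filter.2 ⟨Finset.mem_univ _, h⟩
      simp at this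
    apply hq
    rw [h1 x₀, h1 y₀]
  obtain ⟨B, hB, hBmax⟩ := Finset.exists_max_image _ (fun x =>
    ((toAdd (q (s x)) - toAdd (q (s A)) : ℤ) : ℚ) / ((toAdd (p (s A)) - toAdd (p (s x)) : ℤ) : ℚ))
    hne
  have hB1 := (Finset.mem_filter.1 hB).2
  set num : ℤ := toAdd (q (s B)) - toAdd (q (s A)) with hnum
  set den : ℤ := toAdd (p (s A)) - toAdd (p (s B)) with hden
  have hden0 : 0 < den := by
    rw [hden]
    linarith
  have hslope : ∀ x, (toAdd (q (s x)) - toAdd (q (s A))) * den ≤
      num * (toAdd (p (s A)) - toAdd (p (s x))) := by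
    intro x
    rcases lt_or_eq_of_le (hA' x) with h | h
    · have h1 := hBmax x (Finset.mem_filter.2 ⟨Finset.mem_univ _, h⟩)
      have h2 : (0 : ℚ) < ((toAdd (p (s A)) - toAdd (p (s x)) : ℤ) : ℚ) := by
        exact_mod_cast sub_pos.2 h
      have h3 : (0 : ℚ) < ((toAdd (p (s A)) - toAdd (p (s B)) : ℤ) : ℚ) := by
        exact_mod_cast hden0
      rw [div_le_div_iff₀ h2 h3] at h1
      exact_mod_cast h1
    · have h1 := pinj x A h
      rw [h1]
      simp
  set lam : FreeGroup Z →* Multiplicative ℤ := p ^ num * q ^ den with hlam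
  have lam_apply : ∀ g, toAdd (lam g) = num * toAdd (p g) + den * toAdd (q g) :=
    fun g => comb_apply p q num den g
  set M : ℤ := toAdd (lam (s A)) with hM
  have hle : ∀ x, toAdd (lam (s x)) ≤ M := by
    intro x
    rw [hM, lam_apply, lam_apply]
    have := hslope x
    linarith
  have hM0 : 0 < M := by
    obtain ⟨A', hA2⟩ := hinv A
    have h1 := hle A'
    rw [hA2, map_inv, toAdd_inv, ← hM] at h1
    have h2 : 0 ≤ M := by linarith
    rcases lt_or_eq_of_le h2 with h3 | h3
    · exact h3
    · exfalso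
      have h4 : ∀ x, num * toAdd (p (s x)) + den * toAdd (q (s x)) = 0 := by
        intro x
        obtain ⟨x', hx'⟩ := hinv x
        have h5 := hle x
        have h6 := hle x'
        rw [hx', map_inv, toAdd_inv] at h6
        rw [← lam_apply]
        linarith
      apply hq
      have h5 := h4 x₀
      have h6 := h4 y₀
      apply mul_left_cancel₀ hden0.ne'
      linear_combination toAdd (p (s x₀)) * h6 - toAdd (p (s y₀)) * h5
  set gam : FreeGroup Z →* Multiplicative ℤ := lam ^ (toAdd (p (s A))) * p ^ (-M) with hgam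
  have gam_apply : ∀ g, toAdd (gam g) = toAdd (p (s A)) * toAdd (lam g) + (-M) * toAdd (p g) :=
    fun g => comb_apply lam p _ _ g
  have hBface : toAdd (lam (s B)) = M := by
    rw [hM, lam_apply, lam_apply, hnum, hden]
    ring
  have hne2 : (Finset.univ.filter fun x => toAdd (lam (s x)) = M ∧
      toAdd (p (s x)) < toAdd (p (s A))).Nonempty :=
    ⟨B, Finset.mem_filter.2 ⟨Finset.mem_univ _, hBface, hB1⟩⟩
  obtain ⟨V, hV, hVmax⟩ := Finset.exists_max_image _ (fun x => toAdd (p (s x))) hne2
  obtain ⟨-, hV1, hV2⟩ := Finset.mem_filter.1 hV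
  refine ⟨lam, gam, s A, s V, M, toAdd (gam (s V)), hM0, ?_, rfl, hV1, ?_, rfl, ⟨A, rfl⟩,
    ⟨V, rfl⟩, fun x => ?_⟩
  · rw [gam_apply, hV1]
    nlinarith
  · rw [gam_apply, ← hM]
    ring
  · rcases lt_or_eq_of_le (hle x) with h | h
    · exact Or.inl h
    · refine Or.inr ⟨h, ?_⟩
      rcases lt_or_eq_of_le (hA' x) with h1 | h1
      · have h2 := hVmax x (Finset.mem_filter.2 ⟨Finset.mem_univ _, h, h1⟩)
        rcases lt_or_eq_of_le h2 with h3 | h3
        · refine Or.inr (Or.inr ?_)
          rw [gam_apply, gam_apply, hV1, h]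
          nlinarith
        · exact Or.inr (Or.inl (pinj x V h3))
      · exact Or.inl (pinj x A h1)

end Pool.Agent.H49.FQ
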