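import Mathlib

/-!
# A representation of the free group in which only the identity has trace two

The letter `z` goes to `t E + t⁻¹ E'`, where `E`, `E'` are complementary projections of rank one in
general position; the coefficient of `t ^ ℓ` in the trace of a cyclically reduced word of length `ℓ`
is a product of nonzero numbers.
-/

set_option autoImplicit false

open Polynomial

namespace Pool.Agent.H49.FQ

section Field

variable {k : Type*} [Field k]

/-- the projection onto `(1, a)` along `(1, b)` -/
noncomputable def E (a b : k) : Matrix (Fin 2) (Fin 2) k :=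
  !![b / (b - a), -1 / (b - a); a * b / (b - a), -a / (b - a)]

/-- the matrix `(1, a)ᵀ (b, -1)` -/
def R (a b : k) : Matrix (Fin 2) (Fin 2) k := !![b, -1; a * b, -a]

theorem E_eq (a b : k) : E a b = (b - a)⁻¹ • R a b := by
  ext i j
  fin_cases i <;> fin_cases j <;> simp [E, R] <;> ring

theorem E_mul_R (a b a' b' : k) : E a b * R a' b' = ((b - a') / (b - a)) • R a b' := by
  ext i j
  fin_cases i <;> fin_cases j <;> simp [E, R, Matrix.mul_apply, Fin.sum_univ_two] <;> ring

theorem trace_R (a b : k) : Matrix.trace (R a b) = b - a := by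
  simp [R, Matrix.trace_fin_two]
  ring

/-- the image of a letter -/
noncomputable def A (t a b : k) : Matrix (Fin 2) (Fin 2) k := t • E a b + t⁻¹ • E b a

theorem A_mul {t a b : k} (ht : t ≠ 0) (hab : a ≠ b) : A t a b * A t b a = 1 := by
  have h1 : b - a ≠ 0 := sub_ne_zero.2 (Ne.symm hab)
  have h2 : a - b ≠ 0 := sub_ne_zero.2 hab
  have h3 : a - b = -(b - a) := by ring
  ext i j
  fin_cases i <;> fin_cases j <;>
    simp [A, E, Matrix.mul_apply, Fin.sum_univ_two] <;> rw [h3] <;> field_simp <;> ring

theorem det_A {t a b : k} (ht : t ≠ 0) (hab : a ≠ b) : Matrix.det (A t a b) = 1 := by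
  have h1 : b - a ≠ 0 := sub_ne_zero.2 (Ne.symm hab)
  have h3 : a - b = -(b - a) := by ring
  rw [Matrix.det_fin_two]
  simp only [A, E, Matrix.add_apply, Matrix.smul_apply, smul_eq_mul, Matrix.of_apply,
    Matrix.cons_val', Matrix.cons_val_zero, Matrix.cons_val_one, Matrix.cons_val_fin_one]
  rw [h3]
  field_simp
  ring

end Field

section Words

variable {k Z : Type*} [Field k] (p : Z × Bool → k)

/-- the inverse letter -/
def bar (x : Z × Bool) : Z × Bool := (x.1, !x.2)

/-- the projection of a letter -/
noncomputable def El (x : Z × Bool) : Matrix (Fin 2) (Fin 2) k := E (p x) (p (bar x))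

theorem bar_ne (x : Z × Bool) : bar x ≠ x := by
  rcases x with ⟨z, b⟩
  cases b <;> simp [bar]

theorem prod_El (hp : Function.Injective p) (L : List (Z × Bool)) (x : Z × Bool)
    (h : FreeGroup.IsReduced (x :: L)) : ∃ c : k, c ≠ 0 ∧
      ((x :: L).map (El p)).prod =
        c • R (p x) (p (bar ((x :: L).getLast (List.cons_ne_nil x L)))) := by
  induction L generalizing x with
  | nil =>
    refine ⟨(p (bar x) - p x)⁻¹, inv_ne_zero (sub_ne_zero.2 fun h => bar_ne x (hp h)), ?_⟩
    simp [El, E_eq]
  | cons y L ih =>
    rw [FreeGroup.isReduced_cons_cons] at h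
    obtain ⟨c, hc, e⟩ := ih y h.2
    refine ⟨c * ((p (bar x) - p y) / (p (bar x) - p x)), ?_, ?_⟩
    · refine mul_ne_zero hc (div_ne_zero (sub_ne_zero.2 fun hh => ?_)
        (sub_ne_zero.2 fun h => bar_ne x (hp h)))
      have h1 := hp hh
      have h2 : x.1 = y.1 := by rw [← h1]; rfl
      have h3 := h.1 h2
      rw [← h1] at h3
      simp [bar] at h3
    · rw [List.map_cons, List.prod_cons, e, Matrix.mul_smul, El, E_mul_R, smul_smul]
      simp

theorem trace_El (hp : Function.Injective p) (L : List (Z × Bool)) (hL : L ≠ [])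
    (h : FreeGroup.IsCyclicallyReduced L) : Matrix.trace (L.map (El p)).prod ≠ 0 := by
  obtain ⟨x, L, rfl⟩ := List.exists_cons_of_ne_nil hL
  obtain ⟨c, hc, e⟩ := prod_El p hp L x h.1
  rw [e, Matrix.trace_smul, trace_R, smul_eq_mul]
  refine mul_ne_zero hc (sub_ne_zero.2 fun hh => ?_)
  have h1 := hp hh
  set y := (x :: L).getLast (List.cons_ne_nil x L) with hy
  have h2 := h.2 y (by rw [List.getLast?_eq_getLast_of_ne_nil (List.cons_ne_nil x L)]; rfl) x (by simp)
  rw [← h1] at h2
  have h3 := h2 rfl
  simp [bar] at h3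

/-- the image of a letter, times `t`, as a matrix of polynomials -/
noncomputable def B (x : Z × Bool) : Matrix (Fin 2) (Fin 2) k[X] :=
  Matrix.of fun i j => C (El p x i j) * X ^ 2 + C (El p (bar x) i j)

theorem coeff_B (L : List (Z × Bool)) : ∀ i j, (∀ m, 2 * L.length < m →
      ((L.map (B p)).prod i j).coeff m = 0) ∧
    ((L.map (B p)).prod i j).coeff (2 * L.length) = (L.map (El p)).prod i j := by
  induction L with
  | nil =>
    intro i j
    simp only [List.map_nil, List.prod_nil, List.length_nil, mul_zero, Matrix.one_apply]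
    split_ifs
    · refine ⟨fun m hm => ?_, ?_⟩
      · rw [coeff_one]
        simp [hm.ne']
      · simp
    · simp
  | cons x L ih =>
    intro i j
    rw [List.map_cons, List.prod_cons, List.map_cons, List.prod_cons, List.length_cons]
    have key : ∀ m, ((B p x * (L.map (B p)).prod) i j).coeff (m + 2) =
        ∑ l, (El p x i l * ((L.map (B p)).prod l j).coeff m +
          El p (bar x) i l * ((L.map (B p)).prod l j).coeff (m + 2)) := by
      intro m
      rw [Matrix.mul_apply, finsetSum_coeff]
      refine Finset.sum_congr rfl fun l _ => ?_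
      rw [B, Matrix.of_apply, add_mul, coeff_add, mul_assoc, coeff_C_mul, coeff_C_mul,
        coeff_X_pow_mul]
    constructor
    · intro m hm
      obtain ⟨m, rfl⟩ : ∃ m', m = m' + 2 := ⟨m - 2, by omega⟩
      rw [key]
      refine Finset.sum_eq_zero fun l _ => ?_
      rw [(ih l j).1 m (by omega), (ih l j).1 (m + 2) (by omega)]
      simp
    · have h2 : 2 * (L.length + 1) = 2 * L.length + 2 := by ring
      rw [h2, key, Matrix.mul_apply]
      refine Finset.sum_congr rfl fun l _ => ?_
      rw [(ih l j).2, (ih l j).1 (2 * L.length + 2) (by omega)]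
      simp

end Words

end Pool.Agent.H49.FQ
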