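import Pool.Agent.H49.FQ.Rep

/-!
# Conjugate products in a free group
-/

set_option autoImplicit false

namespace Pool.Agent.H49.FQ

open Multiplicative

section Trace

variable {K : Type*} [Field K]

/-- the trace of `P Q` plus the trace of `P Q⁻¹` -/
private theorem trace_add (P Q : (Matrix (Fin 2) (Fin 2) K)ˣ)
    (hQ : Matrix.det (Q : Matrix (Fin 2) (Fin 2) K) = 1) :
    Matrix.trace ((P * Q : (Matrix (Fin 2) (Fin 2) K)ˣ) : Matrix (Fin 2) (Fin 2) K) +
      Matrix.trace ((P * Q⁻¹ : (Matrix (Fin 2) (Fin 2) K)ˣ) : Matrix (Fin 2) (Fin 2) K) =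
    Matrix.trace (P : Matrix (Fin 2) (Fin 2) K) * Matrix.trace (Q : Matrix (Fin 2) (Fin 2) K) := by
  have h1 : ((Q⁻¹ : (Matrix (Fin 2) (Fin 2) K)ˣ) : Matrix (Fin 2) (Fin 2) K) =
      Matrix.adjugate (Q : Matrix (Fin 2) (Fin 2) K) := by
    have h2 : (Q : Matrix (Fin 2) (Fin 2) K) * Matrix.adjugate (Q : Matrix (Fin 2) (Fin 2) K) =
        1 := by
      rw [Matrix.mul_adjugate, hQ, one_smul]
    exact Units.inv_eq_of_mul_eq_one_right h2
  rw [Units.val_mul, Units.val_mul, h1, Matrix.adjugate_fin_two]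
  simp only [Matrix.trace_fin_two, Matrix.mul_apply, Fin.sum_univ_two, Matrix.of_apply,
    Matrix.cons_val', Matrix.cons_val_zero, Matrix.cons_val_one, Matrix.cons_val_fin_one]
  ring

end Trace

/-- unitriangular matrices -/
private def heis (a b c : ℤ) : (Matrix (Fin 3) (Fin 3) ℤ)ˣ where
  val := !![1, a, c; 0, 1, b; 0, 0, 1]
  inv := !![1, -a, a * b - c; 0, 1, -b; 0, 0, 1]
  val_inv := by
    ext i j
    fin_cases i <;> fin_cases j <;> simp [Matrix.mul_apply, Fin.sum_univ_three]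
    ring
  inv_val := by
    ext i j
    fin_cases i <;> fin_cases j <;> simp [Matrix.mul_apply, Fin.sum_univ_three]
    ring

private theorem commute_det {Z : Type} (lam gam : FreeGroup Z →* Multiplicative ℤ)
    (g h : FreeGroup Z) (hc : g * h = h * g) :
    toAdd (lam g) * toAdd (gam h) = toAdd (lam h) * toAdd (gam g) := by
  let H : FreeGroup Z →* (Matrix (Fin 3) (Fin 3) ℤ)ˣ :=
    FreeGroup.lift fun z => heis (toAdd (lam (FreeGroup.of z))) (toAdd (gam (FreeGroup.of z))) 0
  have key : ∀ g : FreeGroup Z, ∃ c : ℤ, H g = heis (toAdd (lam g)) (toAdd (gam g)) c := by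
    intro g
    induction g using FreeGroup.induction_on with
    | C1 =>
      refine ⟨0, ?_⟩
      rw [H.map_one, lam.map_one, gam.map_one, toAdd_one]
      ext i j
      fin_cases i <;> fin_cases j <;> simp [heis]
    | of z => exact ⟨0, by simp [H]⟩
    | inv_of z hz =>
      obtain ⟨c, hz⟩ := hz
      refine ⟨toAdd (lam (FreeGroup.of z)) * toAdd (gam (FreeGroup.of z)) - c, ?_⟩
      rw [H.map_inv, hz, lam.map_inv, gam.map_inv, toAdd_inv, toAdd_inv]
      ext i j
      fin_cases i <;> fin_cases j <;> simp [heis]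
    | mul x y hx hy =>
      obtain ⟨c, hx⟩ := hx
      obtain ⟨d, hy⟩ := hy
      refine ⟨c + d + toAdd (lam x) * toAdd (gam y), ?_⟩
      rw [H.map_mul, hx, hy, lam.map_mul, gam.map_mul, toAdd_mul, toAdd_mul]
      ext i j
      fin_cases i <;> fin_cases j <;>
        simp [heis, Matrix.mul_apply, Fin.sum_univ_three] <;> ring
  obtain ⟨c, hg⟩ := key g
  obtain ⟨d, hh⟩ := key h
  have h1 : H g * H h = H h * H g := by rw [← map_mul, hc, map_mul]
  rw [hg, hh] at h1
  have h2 := congrArg (fun m : (Matrix (Fin 3) (Fin 3) ℤ)ˣ =>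
    (m : Matrix (Fin 3) (Fin 3) ℤ) 0 2) h1
  simp [heis, Matrix.mul_apply, Fin.sum_univ_three] at h2
  linarith

private theorem eq_of_conj {Z : Type} (P d : FreeGroup Z)
    (hc : IsConj (d * P * d⁻¹ * P) (P * P)) : d * P = P * d := by
  classical
  let k : Type := FractionRing (MvPolynomial (Z × Bool) ℚ)
  let p : Z × Bool → k := fun x => algebraMap (MvPolynomial (Z × Bool) ℚ) k (MvPolynomial.X x)
  have hp : Function.Injective p := fun x y hxy =>
    MvPolynomial.X_injective (FaithfulSMul.algebraMap_injective (MvPolynomial (Z × Bool) ℚ) k hxy)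
  have hconj : ∀ g h : FreeGroup Z, IsConj g h →
      Matrix.trace ((rep p hp g : (Matrix (Fin 2) (Fin 2) (K k))ˣ) :
        Matrix (Fin 2) (Fin 2) (K k)) =
      Matrix.trace ((rep p hp h : (Matrix (Fin 2) (Fin 2) (K k))ˣ) :
        Matrix (Fin 2) (Fin 2) (K k)) := by
    intro g h hgh
    obtain ⟨c, rfl⟩ := isConj_iff.1 hgh
    rw [map_mul, map_mul, map_inv, Units.val_mul, Units.val_mul, Matrix.trace_units_conj]
  set Q := d * P * d⁻¹ with hQ
  have h1 : IsConj P Q := isConj_iff.2 ⟨d, rfl⟩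
  have t1 := hconj _ _ h1
  have t2 := hconj _ _ hc
  have s1 := trace_add (rep p hp Q) (rep p hp P) (det_rep p hp P)
  have s2 := trace_add (rep p hp P) (rep p hp P) (det_rep p hp P)
  have t3 : Matrix.trace ((rep p hp Q * rep p hp P : (Matrix (Fin 2) (Fin 2) (K k))ˣ) :
      Matrix (Fin 2) (Fin 2) (K k)) = Matrix.trace ((rep p hp P * rep p hp P :
      (Matrix (Fin 2) (Fin 2) (K k))ˣ) : Matrix (Fin 2) (Fin 2) (K k)) := by
    rw [← map_mul, ← map_mul]
    exact t2
  rw [t3, ← t1] at s1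
  rw [mul_inv_cancel, Units.val_one, Matrix.trace_one, Fintype.card_fin] at s2
  have s3 : Matrix.trace ((rep p hp (Q * P⁻¹) : (Matrix (Fin 2) (Fin 2) (K k))ˣ) :
        Matrix (Fin 2) (Fin 2) (K k)) = 2 := by
    rw [map_mul, map_inv]
    have e : ((2 : ℕ) : K k) = 2 := by norm_num
    rw [e] at s2
    linear_combination s1 - s2
  have h3 := trace_two p hp _ s3
  have h4 : Q = P := by
    rw [← mul_inv_eq_one]
    exact h3
  rw [hQ, mul_inv_eq_iff_eq_mul] at h4
  exact h4

theorem key {Z : Type} (lam gam : FreeGroup Z →* Multiplicative ℤ) (u v : FreeGroup Z)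
    (h : toAdd (lam u) * toAdd (gam v) ≠ toAdd (lam v) * toAdd (gam u)) (a b n : ℕ)
    (hab : a + b = 2 * n) (hc : IsConj (u ^ a * v * (u ^ b * v)) (u ^ n * v * (u ^ n * v))) :
    a = n := by
  have e : u ^ a * v * (u ^ b * v) =
      u ^ ((a : ℤ) - n) * (u ^ n * v) * (u ^ ((a : ℤ) - n))⁻¹ * (u ^ n * v) := by
    have e1 : u ^ a = u ^ ((a : ℤ) - n) * u ^ n := by
      rw [← zpow_natCast u a, ← zpow_natCast u n, ← zpow_add]
      congr 1
      ring
    have e2 : u ^ b = (u ^ ((a : ℤ) - n))⁻¹ * u ^ n := by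
      rw [← zpow_natCast u b, ← zpow_natCast u n, ← zpow_neg, ← zpow_add]
      congr 1
      have : (a : ℤ) + b = 2 * n := by exact_mod_cast hab
      linarith
    rw [e1, e2]
    group
  rw [e] at hc
  have h1 := eq_of_conj _ _ hc
  have h2 := commute_det lam gam _ _ h1
  simp only [map_mul, map_zpow, map_pow, toAdd_mul, toAdd_zpow, toAdd_pow, smul_eq_mul,
    nsmul_eq_mul] at h2
  have h3 : ((a : ℤ) - n) * (toAdd (lam u) * toAdd (gam v) - toAdd (lam v) * toAdd (gam u)) = 0 := by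
    linarith
  rcases mul_eq_zero.1 h3 with h4 | h4
  · have : (a : ℤ) = n := by linarith
    exact_mod_cast this
  · exact absurd (by linarith) h

end Pool.Agent.H49.FQ
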