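import Pool.Agent.H49.FQ.Hyp

/-!
# Only the identity has trace two
-/

set_option autoImplicit false

open Polynomial

namespace Pool.Agent.H49.FQ

section Rep

variable {k Z : Type*} [Field k] (p : Z × Bool → k)

/-- the field of rational functions -/
abbrev K (k : Type*) [Field k] : Type _ := FractionRing k[X]

/-- the variable as an element of the field -/
noncomputable def tt (k : Type*) [Field k] : K k := algebraMap k[X] (K k) X

theorem tt_ne : tt k ≠ 0 := by
  unfold tt
  rw [Ne, FaithfulSMul.algebraMap_eq_zero_iff]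
  exact X_ne_zero

/-- constants -/
noncomputable def cc (k : Type*) [Field k] : k →+* K k := (algebraMap k[X] (K k)).comp C

theorem cc_inj : Function.Injective (cc k) := RingHom.injective _

/-- the image of a letter -/
noncomputable def Am (x : Z × Bool) : Matrix (Fin 2) (Fin 2) (K k) :=
  A (tt k) (cc k (p x)) (cc k (p (bar x)))

theorem bar_bar (x : Z × Bool) : bar (bar x) = x := by
  simp [bar]

theorem Am_mul (hp : Function.Injective p) (x : Z × Bool) : Am p x * Am p (bar x) = 1 := by
  rw [Am, Am, bar_bar]
  exact A_mul tt_ne fun h => bar_ne x (hp (cc_inj h)).symm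

theorem det_Am (hp : Function.Injective p) (x : Z × Bool) : (Am p x).det = 1 :=
  det_A tt_ne fun h => bar_ne x (hp (cc_inj h)).symm

/-- the representation -/
noncomputable def rep (hp : Function.Injective p) :
    FreeGroup Z →* (Matrix (Fin 2) (Fin 2) (K k))ˣ :=
  FreeGroup.lift fun z =>
    { val := Am p (z, true)
      inv := Am p (z, false)
      val_inv := Am_mul p hp (z, true)
      inv_val := Am_mul p hp (z, false) }

theorem rep_mk (hp : Function.Injective p) (L : List (Z × Bool)) :
    ((rep p hp (FreeGroup.mk L) : (Matrix (Fin 2) (Fin 2) (K k))ˣ) : Matrix (Fin 2) (Fin 2) (K k)) =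
      (L.map (Am p)).prod := by
  rw [rep, FreeGroup.lift_mk]
  induction L with
  | nil => simp
  | cons x L ih =>
    rw [List.map_cons, List.prod_cons, Units.val_mul, ih, List.map_cons, List.prod_cons]
    rcases x with ⟨z, b⟩
    cases b <;> rfl

theorem E_map (a b : k) (i j : Fin 2) : E (cc k a) (cc k b) i j = cc k (E a b i j) := by
  fin_cases i <;> fin_cases j <;> simp [E]

theorem Am_B (x : Z × Bool) : tt k • Am p x = (algebraMap k[X] (K k)).mapMatrix (B p x) := by
  ext i j
  have e : (algebraMap k[X] (K k)).mapMatrix (B p x) i j =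
      cc k (El p x i j) * tt k ^ 2 + cc k (El p (bar x) i j) := by
    simp [B, cc, tt]
  rw [e, Matrix.smul_apply, Am, A, Matrix.add_apply, Matrix.smul_apply, Matrix.smul_apply,
    E_map, E_map, El, El, bar_bar]
  simp only [smul_eq_mul]
  have := tt_ne (k := k)
  field_simp

theorem prod_Am (L : List (Z × Bool)) : tt k ^ L.length • (L.map (Am p)).prod =
    (algebraMap k[X] (K k)).mapMatrix (L.map (B p)).prod := by
  induction L with
  | nil => simp
  | cons x L ih =>
    rw [List.map_cons, List.prod_cons, List.map_cons, List.prod_cons, map_mul, ← Am_B, ← ih,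
      List.length_cons, pow_succ, Matrix.smul_mul, Matrix.mul_smul, smul_smul, mul_comm]

theorem trace_ne (hp : Function.Injective p) (L : List (Z × Bool)) (hL : L ≠ [])
    (h : FreeGroup.IsCyclicallyReduced L) : Matrix.trace (L.map (Am p)).prod ≠ 2 := by
  intro he
  have h1 := congrArg Matrix.trace (prod_Am p L)
  rw [Matrix.trace_smul, he, smul_eq_mul] at h1
  have h2 : Matrix.trace ((algebraMap k[X] (K k)).mapMatrix (L.map (B p)).prod) =
      algebraMap k[X] (K k) (Matrix.trace (L.map (B p)).prod) := by
    simp [Matrix.trace]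
  have h3 : tt k ^ L.length * 2 = algebraMap k[X] (K k) (X ^ L.length * C 2) := by
    rw [map_mul, map_pow]
    have : (C (2 : k) : k[X]) = 2 := map_ofNat C 2
    rw [this, map_ofNat]
    rfl
  rw [h2, h3] at h1
  have h4 : (X ^ L.length * C 2 : k[X]) = Matrix.trace (L.map (B p)).prod :=
    FaithfulSMul.algebraMap_injective k[X] (K k) h1
  have h5 : (X ^ L.length * C 2 : k[X]).coeff (2 * L.length) =
      (Matrix.trace (L.map (B p)).prod).coeff (2 * L.length) := by rw [h4]
  have hl : 0 < L.length := List.length_pos_of_ne_nil hL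
  rw [Matrix.trace, finsetSum_coeff] at h5
  have h6 : ∑ i, ((L.map (B p)).prod.diag i).coeff (2 * L.length) =
      Matrix.trace (L.map (El p)).prod := by
    rw [Matrix.trace]
    exact Finset.sum_congr rfl fun i _ => (coeff_B p L i i).2
  rw [h6, mul_comm, coeff_C_mul, coeff_X_pow, if_neg (by omega), mul_zero] at h5
  exact trace_El p hp L hL h h5.symm

theorem det_rep (hp : Function.Injective p) (g : FreeGroup Z) :
    Matrix.det ((rep p hp g : (Matrix (Fin 2) (Fin 2) (K k))ˣ) :
      Matrix (Fin 2) (Fin 2) (K k)) = 1 := by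
  classical
  rw [← FreeGroup.mk_toWord (x := g), rep_mk]
  generalize g.toWord = L
  induction L with
  | nil => simp
  | cons x L ih => rw [List.map_cons, List.prod_cons, Matrix.det_mul, ih, det_Am p hp, one_mul]

theorem trace_two (hp : Function.Injective p) (g : FreeGroup Z)
    (h : Matrix.trace ((rep p hp g : (Matrix (Fin 2) (Fin 2) (K k))ˣ) :
      Matrix (Fin 2) (Fin 2) (K k)) = 2) : g = 1 := by
  classical
  by_contra hg
  have h1 := FreeGroup.reduceCyclically.conj_conjugator_reduceCyclically g.toWord
  set c := FreeGroup.reduceCyclically.conjugator g.toWord with hc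
  set L := FreeGroup.reduceCyclically g.toWord with hL
  have h2 : g = FreeGroup.mk c * FreeGroup.mk L * (FreeGroup.mk c)⁻¹ := by
    rw [FreeGroup.inv_mk, FreeGroup.mul_mk, FreeGroup.mul_mk, h1, FreeGroup.mk_toWord]
  have h3 : FreeGroup.IsCyclicallyReduced L :=
    FreeGroup.reduceCyclically.isCyclicallyReduced FreeGroup.isReduced_toWord
  have h4 : L ≠ [] := by
    intro h5
    apply hg
    rw [h2, h5]
    have : (FreeGroup.mk ([] : List (Z × Bool))) = 1 := rfl
    rw [this, mul_one, mul_inv_cancel]
  refine trace_ne p hp L h4 h3 ?_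
  rw [← rep_mk p hp, ← h, h2, map_mul, map_mul, map_inv, Units.val_mul, Units.val_mul,
    Matrix.trace_units_conj]

end Rep

end Pool.Agent.H49.FQ
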